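import Pool.Agent.H98.SD.Targets

/-!
# MP_e37c09_lc, row CDB of sd2_modules: the number of the bounded subsets
-/

set_option autoImplicit false

universe u

open Ordinal Cardinal Order Set
open scoped ZFSet
open _root_.HD _root_.HD.SD

namespace Pool.Agent.H88.SD

theorem coe_mk {o a : Ordinal.{u}} (h : a < o) :
    (ToType.mk.symm (ToType.mk (⟨a, h⟩ : Set.Iio o))).1 = a := by
  rw [OrderIso.symm_apply_apply]

theorem pf_CDB : T_CDB.{u} := by
  intro L hL hlim
  let B : L.ord.ToType → Type u := fun m => Set ((ToType.mk.symm m).1.ToType)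
  have hB : #(Σ m, B m) ≤ L := by
    rw [mk_sigma]
    have h1 : Cardinal.sum (fun m => #(B m)) ≤ Cardinal.sum (fun _ : L.ord.ToType => L) := by
      refine Cardinal.sum_le_sum _ _ fun m => ?_
      have h2 : (ToType.mk.symm m).1.card < L := lt_ord.1 (ToType.mk.symm m).2
      have h3 : #(B m) = (2 : Cardinal.{u}) ^ (ToType.mk.symm m).1.card := by
        show #(Set ((ToType.mk.symm m).1.ToType)) = _
        rw [mk_set, mk_toType]
      rw [h3]
      exact (hlim _ h2).le
    refine h1.trans ?_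
    rw [sum_const', mk_ord_toType, mul_eq_self hL.le]
  have hB' : #(Σ m, B m) ≤ #L.ord.ToType := by rwa [mk_ord_toType]
  obtain ⟨e⟩ := (Cardinal.le_def _ _).1 hB'
  refine ⟨fun ξ => {a | ∃ (p : Σ m, B m) (_ : (ToType.mk.symm (e p)).1 = ξ)
    (ha : a < (ToType.mk.symm p.1).1), ToType.mk ⟨a, ha⟩ ∈ p.2}, fun m hm s => ?_⟩
  let p : Σ m, B m := ⟨ToType.mk ⟨m, hm⟩, {x | (ToType.mk.symm x).1 ∈ s}⟩
  have hp : (ToType.mk.symm p.1).1 = m := by
    exact coe_mk hm
  refine ⟨(ToType.mk.symm (e p)).1, (ToType.mk.symm (e p)).2, fun a ha => ⟨?_, fun h => ?_⟩⟩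
  · rintro ⟨p', hp', ha', h⟩
    have h1 : e p' = e p := ToType.mk.symm.injective (Subtype.ext hp')
    have h2 : p' = p := e.injective h1
    subst h2
    exact Eq.mp (congrArg (fun b => b ∈ s) (coe_mk ha')) h
  · have ha' : a < (ToType.mk.symm p.1).1 := ha.trans_eq hp.symm
    exact ⟨p, rfl, ha', Eq.mpr (congrArg (fun b => b ∈ s) (coe_mk ha')) h⟩

end Pool.Agent.H88.SD
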