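import Pool.Agent.H98.SD.Targets

/-!
# MP_e37c09_lc, row COD of sd2_modules: a sequence of subsets of `L` is coded by one subset
-/

set_option autoImplicit false

universe u

open Ordinal Cardinal Order Set
open scoped ZFSet
open _root_.HD _root_.HD.SD

namespace Pool.Agent.H88.SD

theorem pf_COD : T_COD.{u} := by
  intro t ht L hL z
  refine ⟨os L.ord {b | ∃ ξ a, b = t ξ a ∧ a ∈ z ξ}, ?_, ?_⟩
  · intro w hw
    obtain ⟨a, ha, -, rfl⟩ := mem_os.1 hw
    exact toZFSet_mem_toZFSet_iff.2 ha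
  · intro ξ hξ a ha
    show (t ξ a).toZFSet ∈ os L.ord {b | ∃ ξ a, b = t ξ a ∧ a ∈ z ξ} ↔ _
    rw [ord_mem_os]
    constructor
    · rintro ⟨-, ξ', a', h, h'⟩
      obtain ⟨rfl, rfl⟩ := ht.inj _ _ _ _ h
      exact h'
    · intro h
      exact ⟨ht.lt L hL ξ hξ a ha, ξ, a, rfl, h⟩

end Pool.Agent.H88.SD
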